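import Pool.Agent.H43.MD.Wcl

/-!
# ENUM: the rows and the enumeration of the names

`I = (2^c).ord.ToType`; a set of at most `c` elements of `I` is bounded (König). The rows are the lists
`List I`.
-/

set_option autoImplicit false

namespace MD

open BV PK HM PM CN Cardinal

/-- the indices: the initial ordinal of `2 ^ c` -/
abbrev Ix : Type := ((2 : Cardinal.{0}) ^ continuum).ord.ToType

theorem mk_Ix : #Ix = 2 ^ continuum := Cardinal.mk_ord_toType _

theorem aleph0_le_pow : ℵ₀ ≤ (2 : Cardinal.{0}) ^ continuum :=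
  Cardinal.aleph0_le_continuum.trans (Cardinal.cantor _).le

theorem pow_pow : ((2 : Cardinal.{0}) ^ continuum) ^ continuum = 2 ^ continuum := by
  rw [← Cardinal.power_mul, Cardinal.continuum_mul_self]

instance : Nonempty Ix := by
  rw [← Cardinal.mk_ne_zero_iff, mk_Ix]
  exact (Cardinal.aleph0_pos.trans_le aleph0_le_pow).ne'

theorem mk_Iio_Ix (i : Ix) : #(Set.Iio i) < #Ix := by
  rw [mk_Ix]
  exact Cardinal.mk_Iio_ord_toType i

/-- a set of at most `c` indices is bounded -/
theorem exists_bound (S : Set Ix) (hS : #S ≤ continuum) : ∃ i, ∀ j ∈ S, j < i := by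
  have h1 : continuum < Order.cof Ix := by
    rw [Ordinal.cof_toType]
    exact Cardinal.lt_cof_ord_power Cardinal.aleph0_le_continuum Cardinal.one_lt_two
  by_contra hcon
  push Not at hcon
  have h2 : IsCofinal S := fun i => hcon i
  exact absurd (Order.cof_le h2) (not_le.2 (hS.trans_lt h1))

/-- an enumeration of the at most `2 ^ c` elements of `T`: each of them is enumerated at an index for
which the eventually true property `bd` holds -/
theorem exists_enum {T : Type} (hT : #T ≤ #Ix) (bd : T → Ix → Prop)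
    (hbd : ∀ t, ∃ i, ∀ j, i ≤ j → bd t j) (t0 : T) (ht0 : ∀ i, bd t0 i) :
    ∃ ν : Ix → T, (∀ i, bd (ν i) i) ∧ ∀ t, ∃ i, ν i = t := by
  classical
  have h1 : #(Ix × T) ≤ #Ix := by
    rw [Cardinal.mk_prod, Cardinal.lift_id, Cardinal.lift_id]
    refine Cardinal.mul_le_of_le ?_ le_rfl hT
    rw [mk_Ix]
    exact aleph0_le_pow
  obtain ⟨k⟩ := (Cardinal.le_def _ _).1 h1
  refine ⟨fun j => if h : ∃ z : Ix × T, k z = j ∧ bd z.2 j then h.choose.2 else t0, ?_, ?_⟩
  · intro j
    beta_reduce
    by_cases h : ∃ z : Ix × T, k z = j ∧ bd z.2 j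
    · rw [dif_pos h]
      exact h.choose_spec.2
    · rw [dif_neg h]
      exact ht0 j
  · intro t
    obtain ⟨i, hi⟩ := hbd t
    have h2 : ∃ i', i ≤ k (i', t) := by
      by_contra hcon
      push Not at hcon
      have h3 : #Ix ≤ #(Set.Iio i) := Cardinal.mk_le_of_injective
        (f := fun i' : Ix => (⟨k (i', t), hcon i'⟩ : Set.Iio i)) fun a b hab => by
          have h4 : k (a, t) = k (b, t) := congrArg Subtype.val hab
          exact congrArg Prod.fst (k.injective h4)
      exact absurd h3 (not_le.2 (mk_Iio_Ix i))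
    obtain ⟨i', hi'⟩ := h2
    refine ⟨k (i', t), ?_⟩
    beta_reduce
    have h : ∃ z : Ix × T, k z = k (i', t) ∧ bd z.2 (k (i', t)) := ⟨(i', t), rfl, hi _ hi'⟩
    rw [dif_pos h]
    have h3 := k.injective h.choose_spec.1
    rw [h3]

/-- the rows whose indices are all less than `i` -/
def Lt (i : Ix) : Set (List Ix) := {l | ∀ j ∈ l, j < i}

theorem Lt_mono {i j : Ix} (h : i ≤ j) : Lt i ⊆ Lt j := fun _ hl a ha => (hl a ha).trans_le h

/-- a set of at most `c` rows is contained in some `Lt i` -/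
theorem exists_Lt (S : Set (List Ix)) (hS : #S ≤ continuum) : ∃ i, S ⊆ Lt i := by
  have h1 : #(⋃ l ∈ S, {j | j ∈ l} : Set Ix) ≤ continuum := by
    refine (Cardinal.mk_biUnion_le _ _).trans ?_
    refine Cardinal.mul_le_of_le Cardinal.aleph0_le_continuum hS ?_
    refine ciSup_le' fun l => ?_
    refine le_trans ?_ Cardinal.aleph0_le_continuum
    exact (Cardinal.le_aleph0_iff_set_countable).2 (List.finite_toSet l.1).countable
  obtain ⟨i, hi⟩ := exists_bound _ h1
  exact ⟨i, fun l hl j hj => hi j (Set.mem_biUnion hl hj)⟩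

theorem mk_rows : #(List Ix) = 2 ^ continuum := by
  have : Infinite Ix := Cardinal.infinite_iff.2 (by rw [mk_Ix]; exact aleph0_le_pow)
  rw [Cardinal.mk_list_eq_mk, mk_Ix]

variable {B : Type} [CompleteBooleanAlgebra B] {e : Cd (List Ix) → B}

/-- at most `c` elements of `B` have a common support `Lt i` -/
theorem exists_Su (he : DenseEmb (Cd (List Ix)) B e) {κ : Type} (hκ : #κ ≤ continuum) (b : κ → B) :
    ∃ i, ∀ j, i ≤ j → ∀ k, Su e (Lt j) (b k) := by
  choose S hS hS' using fun k => exists_su he (b k)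
  have h1 : #(⋃ k, S k : Set (List Ix)) ≤ continuum := by
    refine (Cardinal.mk_iUnion_le _).trans ?_
    exact Cardinal.mul_le_of_le Cardinal.aleph0_le_continuum hκ (ciSup_le' fun k => hS k)
  obtain ⟨i, hi⟩ := exists_Lt _ h1
  exact ⟨i, fun j hj k => (hS' k).mono he
    ((Set.subset_iUnion S k).trans (hi.trans (Lt_mono hj)))⟩

theorem card_B_le (he : DenseEmb (Cd (List Ix)) B e) : #B ≤ 2 ^ continuum :=
  card_le he mk_rows.le aleph0_le_pow pow_pow

/-- families of at most `c` elements of `B`: an enumeration such that the `i`-th family is supported by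
`Lt i`; `good` singles out the families considered and `f0` is a good family with values in `{⊥, ⊤}` -/
theorem exists_names (he : DenseEmb (Cd (List Ix)) B e) {κ : Type} (hκ : #κ ≤ continuum)
    (good : (κ → B) → Prop) (f0 : κ → B) (hf0 : good f0) (hf1 : ∀ k, f0 k = ⊥ ∨ f0 k = ⊤) :
    ∃ ν : Ix → κ → B, (∀ i, good (ν i)) ∧ (∀ i k, Su e (Lt i) (ν i k)) ∧
      ∀ f, good f → ∃ i, ν i = f := by
  have hT : #{f : κ → B // good f} ≤ #Ix := by
    refine (Cardinal.mk_subtype_le _).trans ?_
    rw [← Cardinal.power_def, mk_Ix]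
    calc #B ^ #κ ≤ (2 ^ continuum) ^ #κ := Cardinal.power_le_power_right (card_B_le he)
      _ ≤ (2 ^ continuum) ^ continuum :=
          Cardinal.power_le_power_left (Cardinal.aleph0_pos.trans_le aleph0_le_pow).ne' hκ
      _ = 2 ^ continuum := pow_pow
  obtain ⟨ν, h1, h2⟩ := exists_enum hT (fun f i => ∀ k, Su e (Lt i) (f.1 k))
    (fun f => exists_Su he hκ f.1) ⟨f0, hf0⟩ (fun i k => by
      intro p hp
      rcases hf1 k with h | h
      · exact absurd (le_bot_iff.1 (hp.trans h.le)) (he.ne_bot p)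
      · exact le_top.trans h.ge)
  refine ⟨fun i => (ν i).1, fun i => (ν i).2, h1, fun f hf => ?_⟩
  obtain ⟨i, hi⟩ := h2 ⟨f, hf⟩
  exact ⟨i, congrArg Subtype.val hi⟩

end MD
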